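import Pool.Agent.Mg.F122b1e.Ge4c4dc

set_option autoImplicit false

namespace Pool.Agent.Results.MP_122b1e_ag.DeepLocus

open Pool.Agent.MP_122b1e_ag

theorem result : ∀ (k n : ℕ), 1 ≤ k → ∀ (hkn : k < n) (X : Matrix (Fin k) (Fin n) ℂ),
    InOpenCell X →
    ((¬ ∃ S : Seed (Vertex k n) (RatFn k n),
        Reachable IsMutable (rectSeed hkn) S ∧ ∀ v, NonzeroAt (S.x v) X) ↔
      MatroidDisconnected X) := by
  intro k n hk hkn X hX
  refine ⟨fun h => ?_, disconnected_not_in_torus hk hkn X hX⟩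
  by_contra hc
  exact h (connected_in_torus hk hkn X hX hc)

end Pool.Agent.Results.MP_122b1e_ag.DeepLocus
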