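import Mathlib
import Pool.Agent.MP_122b1e_ag.PT2

set_option autoImplicit false

namespace Pool.Agent.Results.MP_122b1e_ag.PluckerTori

open Pool.Agent.MP_122b1e_ag

/-- Every point of the big open positroid cell with connected matroid lies in the torus of a
collection of Plücker coordinates obtained from the rectangles collection by square moves if and
only if `k ≤ 2`, `n - k ≤ 2` or `(k, n) = (3, 6)`. -/
theorem result (k n : ℕ) (hk : 1 ≤ k) (hkn : k < n) :
    (∀ X : Matrix (Fin k) (Fin n) ℂ, InOpenCell X → ¬ MatroidDisconnected X →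
      ∃ C : Set (Finset (Fin n)), Relation.ReflTransGen SquareMove (rectCollection hkn) C ∧
        ∀ I ∈ C, PluckerNonzero X I) ↔ (k ≤ 2 ∨ n - k ≤ 2 ∨ (k = 3 ∧ n = 6)) :=
  PT.main hk hkn

end Pool.Agent.Results.MP_122b1e_ag.PluckerTori
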